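import Pool.Agent.N855.VS.EnvB
import Pool.Agent.TH653.J366

/-!
# Volume conjecture, small vertices, job C: bounds near the real axis
-/

set_option autoImplicit false

namespace Pool.Agent.N855.VS

open Filter hiding ker
open Finset Topology MeasureTheory GapVol EvenVol EvenVol.LobIneq
open Pool.Agent.W711.HT
open Pool.Agent.W709.VC (ell Lf)
open Pool.Agent.W688.HT
open Pool.Agent.TH511.Z361 (ell_even ell_intg Lf_sub' Lf_odd PP PP_zero PP_diff PP_abs PP_even
  bb_PP ell_gap)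
open Pool.Agent.N561 (sx k0 S_RB)
open scoped Real

lemma bb_anti {δ x y : ℝ} (hδ0 : 0 ≤ δ) (hδ : δ ≤ 1 / 2) (hx : 0 ≤ x) (hxy : x ≤ |y|)
    (hy : |y| ≤ π) : bb δ y ≤ bb δ x := by
  have hπ := Real.pi_pos
  rw [bb_PP, bb_PP, ← PP_abs 0 (2 * π * δ) y]
  set u := 2 * π * δ with hu
  have hu0 : 0 ≤ u := by positivity
  have hu1 : u ≤ π := by rw [hu]; nlinarith
  have h1 := Ge_diffx u x |y|
  have h2 : 0 ≤ ∫ s in x..|y|, (ell 0 (u - s) - ell 0 (u + s)) := by
    apply intervalIntegral.integral_nonneg_of_ae_restrict hxy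
    have h2 : ∀ᵐ s : ℝ, Real.sin (u + s) ≠ 0 := ae_add u
    rw [Filter.EventuallyLE, ae_restrict_iff' measurableSet_Icc]
    filter_upwards [h2] with s hs hs'
    have hss := Real.sin_nonneg_of_nonneg_of_le_pi (hx.trans hs'.1) (hs'.2.trans hy)
    have hsu := Real.sin_nonneg_of_nonneg_of_le_pi hu0 hu1
    have h5 := ell_gap (h := 0) hu0 hu1 (hx.trans hs'.1) (hs'.2.trans hy) (by
      rw [Real.cosh_zero]
      have h3 := Real.neg_one_le_cos (u + s)
      rcases eq_or_lt_of_le h3 with h4 | h4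
      · exfalso
        apply hs
        have h5 := Real.sin_sq_add_cos_sq (u + s)
        rw [← h4] at h5
        have h6 : Real.sin (u + s) ^ 2 = 0 := by linarith
        exact pow_eq_zero_iff two_ne_zero |>.1 h6
      · linarith)
    have h6 : 0 ≤ 2 * Real.sin u * Real.sin s / (Real.cosh 0 + 1) := by
      rw [Real.cosh_zero]; positivity
    exact h6.trans h5
  have h3 : -(∫ s in x..|y|, (ell 0 (u - s) - ell 0 (u + s))) / (4 * π) ≤ 0 :=
    div_nonpos_of_nonpos_of_nonneg (by linarith) (by positivity)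
  unfold Ge at h1
  linarith

lemma bb_zero_left (x : ℝ) : bb 0 x = 0 := by
  unfold bb
  exact intervalIntegral.integral_same

/-- the exponent in the lower half -/
lemma bb_low {δ x x' x₁ : ℝ} (h1 : 0 < x₁) (h2 : x₁ ≤ 33 / 16) (hδ0 : 0 ≤ δ) (hδ : δ ≤ 1 / 2)
    (hx : x₁ ≤ |x|) (hxp : |x| ≤ π) (hx' : |x'| ≤ π) : bb δ x' + bb δ x ≤ sx x₁ := by
  have hπ := Real.pi_pos
  have e1 := bb_anti hδ0 hδ h1.le hx hxp
  have e2 := bb_anti hδ0 hδ le_rfl (abs_nonneg x') hx'
  have e3 := Ge_le_sx (u := 2 * π * δ) h1.le h2 (by positivity) (by nlinarith)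
  rw [← bb_Ge] at e3
  linarith

lemma sx_nonneg {x₁ : ℝ} (h1 : 0 < x₁) (h2 : x₁ ≤ 33 / 16) : 0 ≤ sx x₁ := by
  have hπ := Real.pi_gt_d2
  have h := bb_low (δ := 0) (x := x₁) (x' := 0) h1 h2 le_rfl (by norm_num)
    (le_abs_self _) (by rw [abs_of_pos h1]; linarith) (by rw [abs_zero]; linarith)
  rw [bb_zero_left, bb_zero_left] at h
  linarith

lemma bb_bet {δ x : ℝ} (hδ0 : 0 ≤ δ) (hδ : δ ≤ 1) (hx : |x| ≤ π) : bb δ x ≤ bet := by
  obtain ⟨ρs, h1, h2, h3⟩ := b1
  have h4 := h3 δ x hδ0 hδ hx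
  have h5 : 0 ≤ c1 * min |x| ρs ^ 2 := by
    unfold c1
    have := Real.pi_pos
    positivity
  linarith

/-- one term -/
lemma term_le {N d : ℕ} (hd : d < N) {ψ φ : ℂ} {A B : ℝ}
    (h1 : ‖Rp N d ψ‖ ≤ Sd N d ^ 2 * Real.exp A) (h2 : ‖Rp N d φ‖ ≤ Sd N d ^ 2 * Real.exp B) :
    ‖Rp N d ψ * Rp N d φ / (Sd N d : ℂ) ^ 4‖ ≤ Real.exp (A + B) := by
  have hS := Sd_pos hd
  rw [norm_div, norm_mul, norm_pow, Complex.norm_real, Real.norm_eq_abs, abs_of_pos hS,
    div_le_iff₀ (by positivity)]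
  calc ‖Rp N d ψ‖ * ‖Rp N d φ‖ ≤ (Sd N d ^ 2 * Real.exp A) * (Sd N d ^ 2 * Real.exp B) :=
        mul_le_mul h1 h2 (norm_nonneg _) (by positivity)
    _ = Real.exp (A + B) * Sd N d ^ 4 := by rw [Real.exp_add]; ring

lemma sum_le {s : Finset ℕ} {N : ℕ} {f : ℕ → ℂ} {A : ℝ} (hs : s.card ≤ N)
    (h : ∀ d ∈ s, ‖f d‖ ≤ Real.exp A) : ‖∑ d ∈ s, f d‖ ≤ N * Real.exp A := by
  calc ‖∑ d ∈ s, f d‖ ≤ ∑ d ∈ s, ‖f d‖ := norm_sum_le _ _
    _ ≤ ∑ d ∈ s, Real.exp A := Finset.sum_le_sum h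
    _ = s.card * Real.exp A := by rw [Finset.sum_const, nsmul_eq_mul]
    _ ≤ N * Real.exp A := mul_le_mul_of_nonneg_right (by exact_mod_cast hs) (Real.exp_pos _).le

lemma lin_exp {ε : ℝ} (hε : 0 < ε) : ∀ᶠ N : ℕ in atTop, (2 : ℝ) * N ≤ Real.exp (N * ε) := by
  have h1 : Tendsto (fun N : ℕ => (N : ℝ)) atTop atTop := tendsto_natCast_atTop_atTop
  filter_upwards [h1.eventually (eventually_ge_atTop (4 / ε ^ 2))] with N hN
  have h0 : (0 : ℝ) ≤ N * ε := by positivity
  have h2 := Real.quadratic_le_exp_of_nonneg h0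
  have h3 : (2 : ℝ) * N ≤ (N * ε) ^ 2 / 2 := by
    rw [div_le_iff₀ (by positivity)] at hN
    have hn : (0 : ℝ) ≤ N := Nat.cast_nonneg N
    nlinarith
  linarith

lemma ker_split (N : ℕ) (ψ φ : ℂ) : ker N ψ φ - k0 N ψ φ =
    ∑ d ∈ Ico ((N + 1) / 2) N, Rp N d ψ * Rp N d φ / (Sd N d : ℂ) ^ 4 := by
  rcases Nat.eq_zero_or_pos N with h | h
  · subst h
    simp [ker, k0]
  · unfold ker k0
    rw [Finset.sum_Ico_eq_sub _ (by omega : (N + 1) / 2 ≤ N)]

/-- the upper half of the kernel -/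
lemma upper {ε : ℝ} (hε : 0 < ε) : ∃ τ : ℝ, 0 < τ ∧ ∀ᶠ N : ℕ in atTop, ∀ x y x' y' : ℝ,
    |x| ≤ π → |y| ≤ τ → |x'| ≤ π → |y'| ≤ τ →
    ‖ker N (x' + y' * Complex.I) (x + y * Complex.I) -
      k0 N (x' + y' * Complex.I) (x + y * Complex.I)‖ ≤ N * Real.exp (N * ε) := by
  obtain ⟨τ, hτ, h⟩ := Pool.Agent.TH653.J366.half (ε / 2) (by positivity)
  refine ⟨τ, hτ, ?_⟩
  filter_upwards [h] with N h x y x' y' hx hy hx' hy'
  rw [ker_split]
  apply sum_le
  · rw [Nat.card_Ico]; omega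
  · intro d hd
    rw [Finset.mem_Ico] at hd
    have hd1 : (N : ℝ) / 2 ≤ d := by
      rw [div_le_iff₀ two_pos]
      have : N ≤ d * 2 := by omega
      exact_mod_cast this
    have e : (N : ℝ) * ε = ε / 2 * N + ε / 2 * N := by ring
    rw [e]
    exact term_le hd.2 (h d hd1 hd.2 x' y' hx' hy') (h d hd1 hd.2 x y hx hy)

theorem rb : S_RB := by
  constructor
  · intro x₁ ε h1 h2 hε
    obtain ⟨τ₀, hτ₀, H0⟩ := b0 (ε / 4) (by positivity)
    obtain ⟨τ₁, hτ₁, H1⟩ := upper (ε := ε / 2) (by positivity)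
    refine ⟨min τ₀ τ₁, lt_min hτ₀ hτ₁, ?_⟩
    filter_upwards [H0, H1, lin_exp (ε := ε / 2) (by positivity), eventually_gt_atTop 0]
      with N H0 H1 H2 hN x y x' y' hx hxp hy hx' hy'
    have hsx := sx_nonneg h1 h2
    have hN0 : (0 : ℝ) < N := by exact_mod_cast hN
    have a1 := H1 x y x' y' hxp (hy.trans (min_le_right _ _)) hx' (hy'.trans (min_le_right _ _))
    have a0 : ‖k0 N (x' + y' * Complex.I) (x + y * Complex.I)‖ ≤
        N * Real.exp (N * (sx x₁ + ε / 2)) := by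
      unfold k0
      apply sum_le
      · rw [Finset.card_range]; omega
      · intro d hd
        rw [Finset.mem_range] at hd
        have hdN : d < N := by omega
        have hδ0 : (0 : ℝ) ≤ (d : ℝ) / N := by positivity
        have hδ : (d : ℝ) / N ≤ 1 / 2 := by
          rw [div_le_iff₀ hN0]
          have : 2 * d ≤ N := by omega
          have h3 : (2 : ℝ) * d ≤ N := by exact_mod_cast this
          linarith
        have e := bb_low h1 h2 hδ0 hδ hx hxp hx'
        refine (term_le hdN (H0 d hdN x' y' hx' (hy'.trans (min_le_left _ _)))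
          (H0 d hdN x y hxp (hy.trans (min_le_left _ _)))).trans ?_
        rw [Real.exp_le_exp, ← mul_add]
        apply mul_le_mul_of_nonneg_left _ hN0.le
        linarith
    have e1 : Real.exp (N * (sx x₁ + ε)) =
        Real.exp (N * (ε / 2)) * Real.exp (N * (sx x₁ + ε / 2)) := by
      rw [← Real.exp_add]; congr 1; ring
    have e2 : Real.exp (N * (ε / 2)) ≤ Real.exp (N * (sx x₁ + ε / 2)) := by
      rw [Real.exp_le_exp]
      apply mul_le_mul_of_nonneg_left _ hN0.le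
      linarith
    have hE := Real.exp_pos (N * (sx x₁ + ε / 2))
    have e3 : 2 * N * Real.exp (N * (sx x₁ + ε / 2)) ≤ Real.exp (N * (sx x₁ + ε)) := by
      rw [e1]
      exact mul_le_mul_of_nonneg_right H2 hE.le
    constructor
    · have a2 := norm_add_le (ker N (x' + y' * Complex.I) (x + y * Complex.I) -
        k0 N (x' + y' * Complex.I) (x + y * Complex.I))
        (k0 N (x' + y' * Complex.I) (x + y * Complex.I))
      rw [sub_add_cancel] at a2
      have a3 : (N : ℝ) * Real.exp (N * (ε / 2)) ≤ N * Real.exp (N * (sx x₁ + ε / 2)) :=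
        mul_le_mul_of_nonneg_left e2 hN0.le
      linarith
    · have : 0 ≤ (N : ℝ) * Real.exp (N * (sx x₁ + ε / 2)) := by positivity
      linarith
  · intro ε hε
    obtain ⟨τ₀, hτ₀, H0⟩ := b0 (ε / 4) (by positivity)
    obtain ⟨τ₁, hτ₁, H1⟩ := upper (ε := ε / 2) (by positivity)
    refine ⟨min τ₀ τ₁, lt_min hτ₀ hτ₁, ?_⟩
    filter_upwards [H0, H1, lin_exp (ε := ε / 2) (by positivity), eventually_gt_atTop 0]
      with N H0 H1 H2 hN x y x' y' hxp hy hx' hy'
    have hN0 : (0 : ℝ) < N := by exact_mod_cast hN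
    have a1 := H1 x y x' y' hxp (hy.trans (min_le_right _ _)) hx' (hy'.trans (min_le_right _ _))
    have key : ∀ s : Finset ℕ, (∀ d ∈ s, d < N) → s.card ≤ N →
        ‖∑ d ∈ s, Rp N d (x' + y' * Complex.I) * Rp N d (x + y * Complex.I) /
          (Sd N d : ℂ) ^ 4‖ ≤ Real.exp (N * (2 * bet + ε)) := by
      intro s hs hc
      have a0 : ‖∑ d ∈ s, Rp N d (x' + y' * Complex.I) * Rp N d (x + y * Complex.I) /
          (Sd N d : ℂ) ^ 4‖ ≤ N * Real.exp (N * (2 * bet + ε / 2)) := by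
        apply sum_le hc
        intro d hd
        have hdN := hs d hd
        have hδ0 : (0 : ℝ) ≤ (d : ℝ) / N := by positivity
        have hδ : (d : ℝ) / N ≤ 1 := by
          rw [div_le_iff₀ hN0, one_mul]
          exact_mod_cast hdN.le
        have e1 := bb_bet hδ0 hδ hxp
        have e2 := bb_bet hδ0 hδ hx'
        refine (term_le hdN (H0 d hdN x' y' hx' (hy'.trans (min_le_left _ _)))
          (H0 d hdN x y hxp (hy.trans (min_le_left _ _)))).trans ?_
        rw [Real.exp_le_exp, ← mul_add]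
        apply mul_le_mul_of_nonneg_left _ hN0.le
        linarith
      have e1 : Real.exp (N * (2 * bet + ε)) =
          Real.exp (N * (ε / 2)) * Real.exp (N * (2 * bet + ε / 2)) := by
        rw [← Real.exp_add]; congr 1; ring
      have hE := Real.exp_pos (N * (2 * bet + ε / 2))
      rw [e1]
      refine a0.trans (mul_le_mul_of_nonneg_right ?_ hE.le)
      linarith
    refine ⟨?_, ?_, ?_⟩
    · unfold ker
      exact key _ (fun d hd => Finset.mem_range.1 hd) (by rw [Finset.card_range])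
    · unfold k0
      exact key _ (fun d hd => by rw [Finset.mem_range] at hd; omega)
        (by rw [Finset.card_range]; omega)
    · refine a1.trans ?_
      have e1 : Real.exp (N * ε) = Real.exp (N * (ε / 2)) * Real.exp (N * (ε / 2)) := by
        rw [← Real.exp_add]; congr 1; ring
      rw [e1]
      exact mul_le_mul_of_nonneg_right (by linarith) (Real.exp_pos _).le

end Pool.Agent.N855.VS
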