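import Mathlib

/-!
# Volume conjecture, small vertices, job C: elementary facts for the envelope
-/

set_option autoImplicit false

namespace Pool.Agent.N855.VS

open scoped Real

/-- a function whose decrease is quadratic in the length is increasing -/
lemma tele {D : ℝ → ℝ} {B C : ℝ} (hC : 0 ≤ C)
    (h : ∀ a b : ℝ, 0 ≤ a → a ≤ b → b ≤ B → -(C * (b - a) ^ 2) ≤ D b - D a) {x : ℝ}
    (hx0 : 0 ≤ x) (hx : x ≤ B) : D 0 ≤ D x := by
  by_contra hcon
  push Not at hcon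
  have key : ∀ n : ℕ, 0 < n → ∀ k : ℕ, k ≤ n →
      D 0 - k * (C * (x / n) ^ 2) ≤ D (k * (x / n)) := by
    intro n hn k hk
    have hn0 : (0 : ℝ) < n := by exact_mod_cast hn
    induction k with
    | zero => simp
    | succ k ih =>
      have h1 := ih (by omega)
      have hxn : 0 ≤ x / n := by positivity
      have hk1 : ((k + 1 : ℕ) : ℝ) ≤ n := by exact_mod_cast hk
      have h2 := h (k * (x / n)) ((k + 1 : ℕ) * (x / n)) (by positivity)
        (mul_le_mul_of_nonneg_right (by push_cast; linarith) hxn) (by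
          calc ((k + 1 : ℕ) : ℝ) * (x / n) ≤ n * (x / n) :=
                mul_le_mul_of_nonneg_right hk1 hxn
            _ = x := by field_simp
            _ ≤ B := hx)
      have e : ((k + 1 : ℕ) : ℝ) * (x / n) - k * (x / n) = x / n := by push_cast; ring
      rw [e] at h2
      push_cast at h2 ⊢
      linarith
  obtain ⟨n, hn⟩ := exists_nat_gt (max 1 (C * x ^ 2 / (D 0 - D x)))
  have hn1 : (1 : ℝ) < n := lt_of_le_of_lt (le_max_left _ _) hn
  have hn2 : C * x ^ 2 / (D 0 - D x) < n := lt_of_le_of_lt (le_max_right _ _) hn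
  have hn0 : 0 < n := by
    have : (0 : ℝ) < n := by linarith
    exact_mod_cast this
  have h1 := key n hn0 n le_rfl
  have hnr : (0 : ℝ) < n := by exact_mod_cast hn0
  have e1 : (n : ℝ) * (x / n) = x := by field_simp
  have e2 : (n : ℝ) * (C * (x / n) ^ 2) = C * x ^ 2 / n := by field_simp
  rw [e1, e2] at h1
  rw [div_lt_iff₀ (by linarith)] at hn2
  have h3 : C * x ^ 2 / n < D 0 - D x := by
    rw [div_lt_iff₀ hnr]; linarith
  linarith

lemma cos_ge {x : ℝ} (hx0 : 0 ≤ x) (hx : x ≤ 33 / 16) : -(1 / 2) ≤ Real.cos x := by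
  have hπ := Real.pi_gt_d2
  have h1 : Real.cos (33 / 16) ≤ Real.cos x :=
    Real.cos_le_cos_of_nonneg_of_le_pi hx0 (by linarith) hx
  have h2 : Real.cos (33 / 16) = -Real.sin (33 / 16 - π / 2) := by
    rw [Real.sin_sub_pi_div_two]; ring
  have hπ2 := Real.pi_lt_d2
  have h3 : Real.sin (33 / 16 - π / 2) ≤ 33 / 16 - π / 2 := Real.sin_le (by linarith)
  linarith

/-- the critical cosine -/
noncomputable def cst (x : ℝ) : ℝ := (1 - Real.cos x) / (3 + Real.cos x)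

/-- the critical point -/
noncomputable def ust (x : ℝ) : ℝ := Real.arccos (cst x)

lemma cst_nonneg (x : ℝ) : 0 ≤ cst x := by
  have h1 := Real.neg_one_le_cos x
  have h2 := Real.cos_le_one x
  unfold cst
  apply div_nonneg <;> linarith

lemma cst_lt {x : ℝ} (hx0 : 0 ≤ x) (hx : x ≤ 33 / 16) : cst x ≤ 3 / 5 := by
  have h1 := cos_ge hx0 hx
  unfold cst
  rw [div_le_iff₀ (by linarith)]
  linarith

lemma cos_ust {x : ℝ} (hx0 : 0 ≤ x) (hx : x ≤ 33 / 16) : Real.cos (ust x) = cst x :=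
  Real.cos_arccos (by linarith [cst_nonneg x]) (by linarith [cst_lt hx0 hx])

lemma ust_nonneg (x : ℝ) : 0 ≤ ust x := Real.arccos_nonneg _

lemma ust_pos {x : ℝ} (hx0 : 0 ≤ x) (hx : x ≤ 33 / 16) : 0 < ust x :=
  Real.arccos_pos.2 (by linarith [cst_lt hx0 hx])

lemma ust_le (x : ℝ) : ust x ≤ π / 2 := by
  unfold ust
  rw [Real.arccos_le_pi_div_two]
  exact cst_nonneg x

lemma neg_cos_le_cst (x : ℝ) : -Real.cos x ≤ cst x := by
  have h1 := Real.neg_one_le_cos x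
  unfold cst
  rw [le_div_iff₀ (by linarith)]
  nlinarith [sq_nonneg (1 + Real.cos x)]

lemma ust_add_le {x : ℝ} (hx0 : 0 ≤ x) (hx : x ≤ 33 / 16) : ust x + x ≤ π := by
  have hπ := Real.pi_gt_d2
  by_contra h
  push Not at h
  have h1 : Real.cos (ust x) < Real.cos (π - x) := by
    apply Real.cos_lt_cos_of_nonneg_of_le_pi (by linarith) _ (by linarith)
    have := ust_le x
    linarith
  rw [cos_ust hx0 hx, Real.cos_pi_sub] at h1
  linarith [neg_cos_le_cst x]

lemma sign_pos {X c : ℝ} (hX : -(1 / 2) ≤ X) (hc1 : -1 < c)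
    (h : (1 - X) / (3 + X) < c) : (1 - c) ^ 2 < (1 + c) * |X + c| := by
  rw [div_lt_iff₀ (by linarith)] at h
  have h1 : 0 < X + c := by nlinarith [sq_nonneg (1 + X)]
  rw [abs_of_pos h1]
  nlinarith

lemma sign_neg {X c : ℝ} (hX : -(1 / 2) ≤ X) (hX1 : X ≤ 1) (hc1 : -1 < c)
    (h : c < (1 - X) / (3 + X)) : (1 + c) * |X + c| < (1 - c) ^ 2 := by
  rw [lt_div_iff₀ (by linarith)] at h
  rcases le_total 0 (X + c) with h1 | h1
  · rw [abs_of_nonneg h1]
    nlinarith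
  · rw [abs_of_nonpos h1]
    nlinarith [sq_nonneg (4 * c + (X - 1)), mul_nonneg (by linarith : 0 ≤ X + 1 / 2) (by linarith : 0 ≤ 1 - X)]

lemma half_vals {x : ℝ} (hx0 : 0 ≤ x) (hx : x ≤ 33 / 16) :
    0 ≤ Real.sin (x / 2) ∧ Real.sin (x / 2) ≤ 7 / 8 ∧ 0 < Real.cos (x / 2) ∧
    Real.cos x = 1 - 2 * Real.sin (x / 2) ^ 2 ∧ Real.sin (x / 2) ^ 2 ≤ 3 / 4 ∧
    Real.cos (x / 2) ^ 2 = 1 - Real.sin (x / 2) ^ 2 := by
  have hπ := Real.pi_gt_d2
  have h1 : 0 ≤ Real.sin (x / 2) := Real.sin_nonneg_of_nonneg_of_le_pi (by linarith) (by linarith)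
  have h2 : 0 < Real.cos (x / 2) := Real.cos_pos_of_mem_Ioo ⟨by linarith, by linarith⟩
  have h3 := Real.sin_sq_add_cos_sq (x / 2)
  have h4 : Real.cos x = 1 - 2 * Real.sin (x / 2) ^ 2 := by
    have : Real.cos x = 2 * Real.cos (x / 2) ^ 2 - 1 := by
      rw [← Real.cos_two_mul]; congr 1; ring
    linarith
  have h5 := cos_ge hx0 hx
  have h6 : Real.sin (x / 2) ^ 2 ≤ 3 / 4 := by linarith
  refine ⟨h1, ?_, h2, h4, h6, by linarith⟩
  nlinarith

/-- at the critical point -/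
lemma crit_vals {x : ℝ} (hx0 : 0 ≤ x) (hx : x ≤ 33 / 16) :
    1 + Real.cos (ust x - x) = 2 * (1 - Real.sin (x / 2) ^ 2) * (1 + Real.sin (x / 2)) ^ 2 /
      (2 - Real.sin (x / 2) ^ 2) ∧
    1 + Real.cos (ust x + x) = 2 * (1 - Real.sin (x / 2) ^ 2) * (1 - Real.sin (x / 2)) ^ 2 /
      (2 - Real.sin (x / 2) ^ 2) := by
  obtain ⟨h1, h2, h3, h4, h5, h6⟩ := half_vals hx0 hx
  set s := Real.sin (x / 2) with hs
  set c := Real.cos (x / 2) with hc
  have hden : 0 < 2 - s ^ 2 := by linarith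
  have hcu := cos_ust hx0 hx
  have e0 : cst x = s ^ 2 / (2 - s ^ 2) := by
    unfold cst
    rw [h4]
    have : (3 + (1 - 2 * s ^ 2)) = 2 * (2 - s ^ 2) := by ring
    rw [this]
    have : 1 - (1 - 2 * s ^ 2) = 2 * s ^ 2 := by ring
    rw [this, mul_div_mul_left _ _ two_ne_zero]
  have hsu0 : 0 ≤ Real.sin (ust x) :=
    Real.sin_nonneg_of_nonneg_of_le_pi (ust_nonneg x) (by linarith [ust_le x, Real.pi_pos])
  have e1 : Real.sin (ust x) = 2 * c / (2 - s ^ 2) := by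
    have h7 := Real.sin_sq_add_cos_sq (ust x)
    rw [hcu, e0] at h7
    have h8 : Real.sin (ust x) ^ 2 = (2 * c / (2 - s ^ 2)) ^ 2 := by
      have : (2 * c / (2 - s ^ 2)) ^ 2 = 1 - (s ^ 2 / (2 - s ^ 2)) ^ 2 := by
        field_simp
        rw [h6]
        ring
      linarith
    exact (pow_left_inj₀ hsu0 (by positivity) two_ne_zero).1 h8
  have e2 : Real.sin x = 2 * s * c := by
    rw [hs, hc, ← Real.sin_two_mul]; congr 1; ring
  rw [Real.cos_sub, Real.cos_add, hcu, e0, e1, e2, h4]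
  constructor
  · field_simp
    rw [h6]
    ring
  · field_simp
    rw [h6]
    ring

lemma crit_low {x : ℝ} (hx0 : 0 ≤ x) (hx : x ≤ 33 / 16) :
    1 / 256 ≤ 1 + Real.cos (ust x + x) := by
  obtain ⟨h1, h2, h3, h4, h5, h6⟩ := half_vals hx0 hx
  rw [(crit_vals hx0 hx).2]
  set s := Real.sin (x / 2) with hs
  rw [le_div_iff₀ (by linarith)]
  have h7 : 1 / 8 ≤ 1 - s := by linarith
  have h8 : (1 / 8) ^ 2 ≤ (1 - s) ^ 2 := by gcongr
  have h9 : 1 / 4 ≤ 1 - s ^ 2 := by linarith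
  nlinarith [mul_le_mul h9 h8 (by norm_num) (by linarith), sq_nonneg s]

end Pool.Agent.N855.VS
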