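import Pool.Agent.TH511.Z361.D
import Pool.Agent.N855.VS.EnvA
import Pool.Agent.N561.A.Stm

/-!
# Volume conjecture, small vertices, job C: the envelope
-/

set_option autoImplicit false

namespace Pool.Agent.N855.VS

open Filter Finset Topology MeasureTheory GapVol EvenVol EvenVol.LobIneq
open Pool.Agent.W711.HT
open Pool.Agent.W709.VC (ell Lf)
open Pool.Agent.W688.HT
open Pool.Agent.TH511.Z361 (ell_even ell_intg Lf_sub' Lf_odd PP PP_zero PP_diff PP_abs PP_even
  bb_PP gh2_int WW VV WW_zero u0 c0 ell_gap)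
open Pool.Agent.N561 (sx)
open scoped Real

noncomputable def Ge (u x : ℝ) : ℝ := PP 0 u 0 + PP 0 u x + 4 / π * lob (u / 2)

lemma bb_Ge (δ x : ℝ) : bb δ 0 + bb δ x = Ge (2 * π * δ) x := by
  rw [bb_PP, bb_PP]
  unfold Ge
  rw [show 2 * π * δ / 2 = π * δ by ring]
  ring

noncomputable def kx (x t : ℝ) : ℝ :=
  ell 0 t + (ell 0 (t - x) + ell 0 (t + x)) / 2 + 4 * g (t / 2)

lemma int_sub (x a b : ℝ) : IntervalIntegrable (fun t => ell 0 (t - x)) volume a b := by
  have := (ell_intg le_rfl (a - x) (b - x)).comp_sub_right x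
  simpa using this

lemma int_add (x a b : ℝ) : IntervalIntegrable (fun t => ell 0 (t + x)) volume a b := by
  have := (ell_intg le_rfl (a + x) (b + x)).comp_add_right x
  simpa using this

lemma kx_int (x a b : ℝ) : IntervalIntegrable (kx x) volume a b :=
  ((ell_intg le_rfl a b).add (((int_sub x a b).add (int_add x a b)).div_const 2)).add
    ((gh2_int a b).const_mul 4)

lemma Ge_diff (a b x : ℝ) : Ge b x - Ge a x = (∫ t in a..b, kx x t) / (2 * π) := by
  have hπ := Real.pi_pos
  unfold Ge kx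
  rw [intervalIntegral.integral_add ((ell_intg le_rfl a b).add
    (((int_sub x a b).add (int_add x a b)).div_const 2)) ((gh2_int a b).const_mul 4),
    intervalIntegral.integral_add (ell_intg le_rfl a b)
    (((int_sub x a b).add (int_add x a b)).div_const 2),
    intervalIntegral.integral_div, intervalIntegral.integral_add (int_sub x a b) (int_add x a b),
    intervalIntegral.integral_comp_sub_right (ell 0) x,
    intervalIntegral.integral_comp_add_right (ell 0) x,
    ← Lf_sub' le_rfl, ← Lf_sub' le_rfl, ← Lf_sub' le_rfl, intervalIntegral.integral_const_mul]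
  have h1 : ∫ t in a..b, g (t / 2) = 2 * (lob (b / 2) - lob (a / 2)) := by
    have := intervalIntegral.integral_comp_div (a := a) (b := b) g (two_ne_zero (α := ℝ))
    rw [this, ← lob_sub, smul_eq_mul]
  rw [h1, PP_zero, PP_zero]
  unfold PP
  have e1 : Lf 0 (-b - x) = -Lf 0 (b + x) := by rw [← Lf_odd]; congr 1; ring
  have e2 : Lf 0 (-a - x) = -Lf 0 (a + x) := by rw [← Lf_odd]; congr 1; ring
  rw [e1, e2]
  field_simp
  ring

lemma kx_eq {x t : ℝ} (ht0 : 0 < t) (ht1 : t < π) (hne : Real.cos x + Real.cos t ≠ 0) :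
    kx x t = Real.log ((1 + Real.cos t) * |Real.cos x + Real.cos t|) -
      Real.log ((1 - Real.cos t) ^ 2) := by
  have hc1 : -1 < Real.cos t := by
    rw [← Real.cos_pi]
    exact Real.cos_lt_cos_of_nonneg_of_le_pi ht0.le le_rfl ht1
  have hc2 : Real.cos t < 1 := by
    rw [← Real.cos_zero]
    exact Real.cos_lt_cos_of_nonneg_of_le_pi le_rfl ht1.le ht0
  have hs : 0 < Real.sin (t / 2) :=
    Real.sin_pos_of_pos_of_lt_pi (by linarith) (by linarith)
  have e1 : 1 - Real.cos t = 2 * Real.sin (t / 2) ^ 2 := by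
    have h2 : Real.cos t = 2 * Real.cos (t / 2) ^ 2 - 1 := by
      rw [← Real.cos_two_mul]; congr 1; ring
    have h3 := Real.sin_sq_add_cos_sq (t / 2)
    rw [h2]; linarith
  have hp : (2 * 1 + 2 * Real.cos (t - x)) * (2 * 1 + 2 * Real.cos (t + x)) =
      (2 * |Real.cos x + Real.cos t|) ^ 2 := by
    rw [mul_pow, sq_abs, Real.cos_sub, Real.cos_add]
    have h3 := Real.sin_sq_add_cos_sq x
    have h4 := Real.sin_sq_add_cos_sq t
    have h5 : Real.sin x ^ 2 = 1 - Real.cos x ^ 2 := by linarith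
    have h6 : Real.sin t ^ 2 = 1 - Real.cos t ^ 2 := by linarith
    have : (2 * 1 + 2 * (Real.cos t * Real.cos x + Real.sin t * Real.sin x)) *
        (2 * 1 + 2 * (Real.cos t * Real.cos x - Real.sin t * Real.sin x)) =
        4 * ((1 + Real.cos t * Real.cos x) ^ 2 - Real.sin t ^ 2 * Real.sin x ^ 2) := by ring
    rw [this, h5, h6]
    ring
  have ha : 0 < |Real.cos x + Real.cos t| := abs_pos.2 hne
  have hpos : (2 * 1 + 2 * Real.cos (t - x)) * (2 * 1 + 2 * Real.cos (t + x)) ≠ 0 := by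
    rw [hp]; positivity
  have hn1 := left_ne_zero_of_mul hpos
  have hn2 := right_ne_zero_of_mul hpos
  unfold kx ell g
  rw [Real.cosh_zero, ← Real.log_mul hn1 hn2, hp, Real.log_pow, e1]
  have p1 : 0 < 1 + Real.cos t := by linarith
  have e2 : 2 * 1 + 2 * Real.cos t = 2 * (1 + Real.cos t) := by ring
  rw [e2, Real.log_mul two_ne_zero p1.ne', Real.log_mul two_ne_zero ha.ne',
    Real.log_mul two_ne_zero hs.ne', Real.log_mul p1.ne' ha.ne', Real.log_pow,
    Real.log_mul two_ne_zero (pow_pos hs 2).ne', Real.log_pow]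
  push_cast
  ring

lemma kx_nonneg {x t : ℝ} (hx0 : 0 ≤ x) (hx : x ≤ 33 / 16) (ht0 : 0 < t) (ht1 : t < π)
    (hne : Real.cos x + Real.cos t ≠ 0) (hc : cst x < Real.cos t) : 0 ≤ kx x t := by
  have hc1 : -1 < Real.cos t := by
    rw [← Real.cos_pi]
    exact Real.cos_lt_cos_of_nonneg_of_le_pi ht0.le le_rfl ht1
  have hc2 : Real.cos t < 1 := by
    rw [← Real.cos_zero]
    exact Real.cos_lt_cos_of_nonneg_of_le_pi le_rfl ht1.le ht0
  rw [kx_eq ht0 ht1 hne, sub_nonneg]
  exact Real.log_le_log (pow_pos (by linarith) 2) (sign_pos (cos_ge hx0 hx) hc1 hc).le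

lemma kx_nonpos {x t : ℝ} (hx0 : 0 ≤ x) (hx : x ≤ 33 / 16) (ht0 : 0 < t) (ht1 : t < π)
    (hne : Real.cos x + Real.cos t ≠ 0) (hc : Real.cos t < cst x) : kx x t ≤ 0 := by
  have hc1 : -1 < Real.cos t := by
    rw [← Real.cos_pi]
    exact Real.cos_lt_cos_of_nonneg_of_le_pi ht0.le le_rfl ht1
  have ha : 0 < |Real.cos x + Real.cos t| := abs_pos.2 hne
  rw [kx_eq ht0 ht1 hne, sub_nonpos]
  exact Real.log_le_log (mul_pos (by linarith) ha)
    (sign_neg (cos_ge hx0 hx) (Real.cos_le_one x) hc1 hc).le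

lemma ae_ne (x : ℝ) : ∀ᵐ t : ℝ, Real.cos x + Real.cos t ≠ 0 := by
  have h1 := ae_add (x / 2 + π / 2)
  have h2 := ae_sub (x / 2 + π / 2)
  have hq : Measure.QuasiMeasurePreserving (fun t : ℝ => t / 2) volume volume := by
    constructor
    · fun_prop
    · have : (fun t : ℝ => t / 2) = fun t => (1 / 2 : ℝ) * t := by funext t; ring
      rw [this, Real.map_volume_mul_left (by norm_num)]
      exact Measure.smul_absolutelyContinuous
  have h3 := hq.ae h1
  have h4 := hq.ae h2
  filter_upwards [h3, h4] with t h5 h6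
  have a1 : Real.sin ((x / 2 + π / 2) + t / 2) = Real.cos (x / 2 + t / 2) := by
    rw [show (x / 2 + π / 2) + t / 2 = (x / 2 + t / 2) + π / 2 by ring, Real.sin_add_pi_div_two]
  have a2 : Real.sin ((x / 2 + π / 2) - t / 2) = Real.cos (x / 2 - t / 2) := by
    rw [show (x / 2 + π / 2) - t / 2 = (x / 2 - t / 2) + π / 2 by ring, Real.sin_add_pi_div_two]
  rw [a1] at h5
  rw [a2] at h6
  rw [Real.cos_add_cos]
  have e1 : (x + t) / 2 = x / 2 + t / 2 := by ring
  have e2 : (x - t) / 2 = x / 2 - t / 2 := by ring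
  rw [e1, e2]
  exact mul_ne_zero (mul_ne_zero two_ne_zero h5) h6

lemma Ge_le {u x : ℝ} (hx0 : 0 ≤ x) (hx : x ≤ 33 / 16) (hu0 : 0 ≤ u) (hu1 : u ≤ π) :
    Ge u x ≤ Ge (ust x) x := by
  have hπ := Real.pi_pos
  have h1 := ust_pos hx0 hx
  have h2 := ust_le x
  rcases le_total u (ust x) with hlt | hgt
  · have e := Ge_diff u (ust x) x
    have h3 : 0 ≤ ∫ t in u..(ust x), kx x t := by
      apply intervalIntegral.integral_nonneg_of_ae_restrict hlt
      rw [Filter.EventuallyLE, ae_restrict_iff' measurableSet_Icc]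
      have hne0 : ∀ᵐ t : ℝ, t ≠ 0 := by simp [ae_iff, measure_singleton]
      have hne1 : ∀ᵐ t : ℝ, t ≠ ust x := by simp [ae_iff, measure_singleton]
      filter_upwards [ae_ne x, hne0, hne1] with t ht h0 h4 ht'
      have ht0 : 0 < t := lt_of_le_of_ne (hu0.trans ht'.1) (Ne.symm h0)
      have ht1 : t < ust x := lt_of_le_of_ne ht'.2 h4
      apply kx_nonneg hx0 hx ht0 (by linarith) ht
      rw [← cos_ust hx0 hx]
      exact Real.cos_lt_cos_of_nonneg_of_le_pi ht0.le (by linarith) ht1
    have h4 : 0 ≤ (∫ t in u..(ust x), kx x t) / (2 * π) := by positivity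
    linarith
  · have e := Ge_diff (ust x) u x
    have h3 : 0 ≤ ∫ t in (ust x)..u, -kx x t := by
      apply intervalIntegral.integral_nonneg_of_ae_restrict hgt
      rw [Filter.EventuallyLE, ae_restrict_iff' measurableSet_Icc]
      have hne0 : ∀ᵐ t : ℝ, t ≠ π := by simp [ae_iff, measure_singleton]
      have hne1 : ∀ᵐ t : ℝ, t ≠ ust x := by simp [ae_iff, measure_singleton]
      filter_upwards [ae_ne x, hne0, hne1] with t ht h0 h4 ht'
      have ht1 : t < π := lt_of_le_of_ne (ht'.2.trans hu1) h0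
      have ht0 : ust x < t := lt_of_le_of_ne ht'.1 (Ne.symm h4)
      show 0 ≤ -kx x t
      have := kx_nonpos hx0 hx (h1.trans ht0) ht1 ht (by
        rw [← cos_ust hx0 hx]
        exact Real.cos_lt_cos_of_nonneg_of_le_pi h1.le ht1.le ht0)
      linarith
    rw [intervalIntegral.integral_neg] at h3
    have h4 : (∫ t in (ust x)..u, kx x t) / (2 * π) ≤ 0 :=
      div_nonpos_of_nonpos_of_nonneg (by linarith) (by positivity)
    linarith

lemma intx_sub (u a b : ℝ) : IntervalIntegrable (fun s => ell 0 (u - s)) volume a b := by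
  have := (ell_intg le_rfl (u - a) (u - b)).comp_sub_left u
  simpa using this

lemma intx_add (u a b : ℝ) : IntervalIntegrable (fun s => ell 0 (u + s)) volume a b := by
  have := (ell_intg le_rfl (u + a) (u + b)).comp_add_left u
  simpa using this

lemma Ge_diffx (u a b : ℝ) : Ge u b - Ge u a =
    -(∫ s in a..b, (ell 0 (u - s) - ell 0 (u + s))) / (4 * π) := by
  have h1 := PP_diff (h := 0) le_rfl u b
  have h2 := PP_diff (h := 0) le_rfl u a
  have h3 : (∫ s in (0:ℝ)..b, (ell 0 (u - s) - ell 0 (u + s))) -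
      (∫ s in (0:ℝ)..a, (ell 0 (u - s) - ell 0 (u + s))) =
      ∫ s in a..b, (ell 0 (u - s) - ell 0 (u + s)) :=
    intervalIntegral.integral_interval_sub_left ((intx_sub u _ _).sub (intx_add u _ _))
      ((intx_sub u _ _).sub (intx_add u _ _))
  unfold Ge
  rw [← h3, neg_sub, sub_div, ← h1, ← h2]
  ring

noncomputable def gf (t : ℝ) : ℝ := Real.log ((1 + Real.sin t) / Real.cos t)

lemma cos_sub_le (a b : ℝ) : Real.cos a - Real.cos b ≤ |a - b| := by
  rw [Real.cos_sub_cos]
  have h1 := Real.abs_sin_le_one ((a + b) / 2)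
  have h2 : |Real.sin ((a - b) / 2)| ≤ |(a - b) / 2| := Real.abs_sin_le_abs
  have h3 : -2 * Real.sin ((a + b) / 2) * Real.sin ((a - b) / 2) ≤
      |(-2 * Real.sin ((a + b) / 2) * Real.sin ((a - b) / 2))| := le_abs_self _
  rw [abs_mul, abs_mul, abs_neg, abs_two] at h3
  have h4 : |(a - b) / 2| = |a - b| / 2 := by rw [abs_div, abs_two]
  rw [h4] at h2
  have h5 : |Real.sin ((a + b) / 2)| * |Real.sin ((a - b) / 2)| ≤ 1 * (|a - b| / 2) :=
    mul_le_mul h1 h2 (abs_nonneg _) zero_le_one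
  linarith

lemma key_low {a b s : ℝ} (ha : 0 ≤ a) (hb : b ≤ 33 / 16) (hs0 : a ≤ s) (hs1 : s ≤ b) :
    4 * gf (b / 2) - 512 * (b - a) ≤ ell 0 (ust b - s) - ell 0 (ust b + s) := by
  have hb0 : 0 ≤ b := by linarith
  have hπ := Real.pi_pos
  set u := ust b with hu
  have hu0 : 0 < u := ust_pos hb0 hb
  have hub : u + b ≤ π := ust_add_le hb0 hb
  have hQ : 1 / 256 ≤ 1 + Real.cos (u + b) := crit_low hb0 hb
  have hP' : 1 + Real.cos (u + b) ≤ 1 + Real.cos (u - s) := by
    have h1 : Real.cos (u + b) ≤ Real.cos |u - s| := by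
      apply Real.cos_le_cos_of_nonneg_of_le_pi (abs_nonneg _) hub
      rw [abs_le]
      constructor <;> linarith
    rw [Real.cos_abs] at h1
    linarith
  have hQ' : 1 + Real.cos (u + b) ≤ 1 + Real.cos (u + s) := by
    have := Real.cos_le_cos_of_nonneg_of_le_pi (x := u + s) (y := u + b) (by linarith) hub
      (by linarith)
    linarith
  have hPb : 1 + Real.cos (u + b) ≤ 1 + Real.cos (u - b) := by
    have h1 : Real.cos (u + b) ≤ Real.cos |u - b| := by
      apply Real.cos_le_cos_of_nonneg_of_le_pi (abs_nonneg _) hub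
      rw [abs_le]
      constructor <;> linarith
    rw [Real.cos_abs] at h1
    linarith
  have d1 := cos_sub_le (u - b) (u - s)
  have d2 := cos_sub_le (u + s) (u + b)
  have e1 : |u - b - (u - s)| = b - s := by
    rw [show u - b - (u - s) = -(b - s) by ring, abs_neg, abs_of_nonneg (by linarith)]
  have e2 : |u + s - (u + b)| = b - s := by
    rw [show u + s - (u + b) = -(b - s) by ring, abs_neg, abs_of_nonneg (by linarith)]
  rw [e1] at d1
  rw [e2] at d2
  have q : Real.log ((1 + Real.cos (u - b)) / (1 + Real.cos (u + b))) = 4 * gf (b / 2) := by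
    obtain ⟨c1, c2⟩ := crit_vals hb0 hb
    obtain ⟨h1, h2, h3, h4, h5, h6⟩ := half_vals hb0 hb
    unfold gf
    rw [← hu] at c1 c2
    rw [c1, c2]
    have e4 : (4 : ℝ) * Real.log ((1 + Real.sin (b / 2)) / Real.cos (b / 2)) =
        Real.log (((1 + Real.sin (b / 2)) / Real.cos (b / 2)) ^ 4) := by
      rw [Real.log_pow]; push_cast; ring
    rw [e4]
    congr 1
    set σ := Real.sin (b / 2) with hσ
    set c := Real.cos (b / 2) with hc
    have e5 : c ^ 4 = ((1 - σ) * (1 + σ)) ^ 2 := by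
      have : c ^ 4 = (c ^ 2) ^ 2 := by ring
      rw [this, h6]; ring
    have n1 : (1 - σ) ≠ 0 := by linarith
    have n2 : (1 + σ) ≠ 0 := by linarith
    have n3 : (2 - σ ^ 2) ≠ 0 := by linarith
    have n4 : (1 - σ ^ 2) ≠ 0 := by linarith
    rw [div_pow, e5]
    field_simp
  have L1 : Real.log (2 * (1 + Real.cos (u - b))) - Real.log (2 * (1 + Real.cos (u - s))) ≤
      256 * (b - a) := by
    have p1 : 0 < 1 + Real.cos (u - b) := by linarith
    have p2 : 0 < 1 + Real.cos (u - s) := by linarith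
    rw [← Real.log_div (by positivity) (by positivity), mul_div_mul_left _ _ two_ne_zero]
    have h1 := Real.log_le_sub_one_of_pos (div_pos p1 p2)
    have h2 : (1 + Real.cos (u - b)) / (1 + Real.cos (u - s)) - 1 ≤ 256 * (b - a) := by
      rw [div_sub_one p2.ne', div_le_iff₀ p2]
      nlinarith
    linarith
  have L2 : Real.log (2 * (1 + Real.cos (u + s))) - Real.log (2 * (1 + Real.cos (u + b))) ≤
      256 * (b - a) := by
    have p1 : 0 < 1 + Real.cos (u + s) := by linarith
    have p2 : 0 < 1 + Real.cos (u + b) := by linarith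
    rw [← Real.log_div (by positivity) (by positivity), mul_div_mul_left _ _ two_ne_zero]
    have h1 := Real.log_le_sub_one_of_pos (div_pos p1 p2)
    have h2 : (1 + Real.cos (u + s)) / (1 + Real.cos (u + b)) - 1 ≤ 256 * (b - a) := by
      rw [div_sub_one p2.ne', div_le_iff₀ p2]
      nlinarith
    linarith
  have L3 : Real.log (2 * (1 + Real.cos (u - b))) - Real.log (2 * (1 + Real.cos (u + b))) =
      4 * gf (b / 2) := by
    rw [← Real.log_div (by linarith) (by linarith), mul_div_mul_left _ _ two_ne_zero, q]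
  unfold ell
  rw [Real.cosh_zero]
  have e3 : 2 * 1 + 2 * Real.cos (u - s) = 2 * (1 + Real.cos (u - s)) := by ring
  have e4 : 2 * 1 + 2 * Real.cos (u + s) = 2 * (1 + Real.cos (u + s)) := by ring
  rw [e3, e4]
  linarith

lemma gf_cont {a b : ℝ} (ha : -(π / 2) < a) (hb : b < π / 2) : ContinuousOn gf (Set.Icc a b) := by
  intro t ht
  apply ContinuousAt.continuousWithinAt
  have h1 : 0 < Real.cos t := Real.cos_pos_of_mem_Ioo ⟨by linarith [ht.1], by linarith [ht.2]⟩
  have h2 : -1 < Real.sin t := by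
    have h3 := Real.sin_lt_sin_of_lt_of_le_pi_div_two (x := -(π / 2)) (y := t) le_rfl
      (by linarith [ht.2]) (by linarith [ht.1])
    rw [Real.sin_neg, Real.sin_pi_div_two] at h3
    exact h3
  unfold gf
  apply ContinuousAt.log
  · exact ContinuousAt.div (by fun_prop) (by fun_prop) h1.ne'
  · exact (div_pos (by linarith) h1).ne'

lemma gf_mono {a b : ℝ} (ha : 0 ≤ a) (hab : a ≤ b) (hb : b < π / 2) : gf a ≤ gf b := by
  have h1 : 0 < Real.cos b := Real.cos_pos_of_mem_Ioo ⟨by linarith, by linarith⟩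
  have h2 : Real.cos b ≤ Real.cos a :=
    Real.cos_le_cos_of_nonneg_of_le_pi ha (by linarith [Real.pi_pos]) hab
  have h3 : Real.sin a ≤ Real.sin b :=
    Real.sin_le_sin_of_le_of_le_pi_div_two (by linarith [Real.pi_pos]) hb.le hab
  have h4 : 0 ≤ Real.sin a := Real.sin_nonneg_of_nonneg_of_le_pi ha (by linarith [Real.pi_pos])
  unfold gf
  apply Real.log_le_log (div_pos (by linarith) (by linarith))
  apply div_le_div₀ <;> linarith

lemma sx_diff {a b : ℝ} (ha : 0 ≤ a) (hab : a ≤ b) (hb : b ≤ 33 / 16) :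
    -((b - a) * gf (b / 2) / π) ≤ sx b - sx a := by
  have hπ := Real.pi_pos
  have hπ2 := Real.pi_gt_d2
  have hint : ∀ c d : ℝ, 0 ≤ c → c ≤ d → d ≤ 33 / 16 →
      IntervalIntegrable gf volume (c / 2) (d / 2) := by
    intro c d hc hcd hd
    apply ContinuousOn.intervalIntegrable
    rw [Set.uIcc_of_le (by linarith)]
    exact gf_cont (by linarith) (by linarith)
  have h1 : sx b - sx a = -(2 / π * ∫ t in (a / 2)..(b / 2), gf t) := by
    have h2 : (∫ t in (0:ℝ)..(b / 2), gf t) - ∫ t in (0:ℝ)..(a / 2), gf t =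
        ∫ t in (a / 2)..(b / 2), gf t := by
      have i1 := hint 0 b le_rfl (by linarith) hb
      have i2 := hint 0 a le_rfl ha (by linarith)
      rw [zero_div] at i1 i2
      exact intervalIntegral.integral_interval_sub_left i1 i2
    rw [← h2]
    unfold sx gf
    ring
  rw [h1]
  have h3 : ∫ t in (a / 2)..(b / 2), gf t ≤ ∫ t in (a / 2)..(b / 2), gf (b / 2) := by
    apply intervalIntegral.integral_mono_on (by linarith) (hint a b ha hab hb)
      intervalIntegrable_const
    intro t ht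
    exact gf_mono (by linarith [ht.1]) ht.2 (by linarith)
  rw [intervalIntegral.integral_const, smul_eq_mul] at h3
  have h4 : (b - a) * gf (b / 2) / π = 2 / π * ((b / 2 - a / 2) * gf (b / 2)) := by
    field_simp
  rw [h4]
  have h5 : 2 / π * ∫ t in (a / 2)..(b / 2), gf t ≤ 2 / π * ((b / 2 - a / 2) * gf (b / 2)) :=
    mul_le_mul_of_nonneg_left h3 (by positivity)
  linarith

lemma Ge_step {a b : ℝ} (ha : 0 ≤ a) (hab : a ≤ b) (hb : b ≤ 33 / 16) :
    Ge (ust b) b - Ge (ust a) a ≤ -((b - a) * gf (b / 2) / π) + 128 * (b - a) ^ 2 / π := by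
  have hπ := Real.pi_pos
  have h1 := Ge_le (u := ust b) ha (by linarith) (ust_nonneg b) (by linarith [ust_le b])
  have h2 := Ge_diffx (ust b) a b
  have h3 : ∫ s in a..b, (4 * gf (b / 2) - 512 * (b - a)) ≤
      ∫ s in a..b, (ell 0 (ust b - s) - ell 0 (ust b + s)) := by
    apply intervalIntegral.integral_mono_on hab intervalIntegrable_const
      ((intx_sub _ _ _).sub (intx_add _ _ _))
    intro s hs
    exact key_low ha hb hs.1 hs.2
  rw [intervalIntegral.integral_const, smul_eq_mul] at h3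
  have h4 : -(∫ s in a..b, (ell 0 (ust b - s) - ell 0 (ust b + s))) / (4 * π) ≤
      -((b - a) * (4 * gf (b / 2) - 512 * (b - a))) / (4 * π) := by
    apply div_le_div_of_nonneg_right _ (by positivity)
    linarith
  have h5 : -((b - a) * (4 * gf (b / 2) - 512 * (b - a))) / (4 * π) =
      -((b - a) * gf (b / 2) / π) + 128 * (b - a) ^ 2 / π := by
    field_simp
    ring
  rw [h5] at h4
  linarith

lemma Ge_zero : Ge (ust 0) 0 = 2 * bet := by
  have hπ := Real.pi_pos
  rw [← WW_zero]
  unfold WW VV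
  have e : u0 0 = ust 0 := by
    unfold u0 ust c0 cst
    rw [Real.cosh_zero, Real.cos_zero]
  rw [e]
  unfold Ge
  rw [PP_zero]
  field_simp
  ring

lemma sx_zero : sx 0 = 2 * bet := by
  unfold sx
  simp

/-- the envelope -/
theorem Ge_le_sx {u x : ℝ} (hx0 : 0 ≤ x) (hx : x ≤ 33 / 16) (hu0 : 0 ≤ u) (hu1 : u ≤ π) :
    Ge u x ≤ sx x := by
  have hπ := Real.pi_gt_d2
  refine (Ge_le hx0 hx hu0 hu1).trans ?_
  have h := tele (D := fun x => sx x - Ge (ust x) x) (B := 33 / 16) (C := 128) (by norm_num) ?_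
    hx0 hx
  · have h' : sx 0 - Ge (ust 0) 0 ≤ sx x - Ge (ust x) x := h
    rw [Ge_zero, sx_zero] at h'
    linarith
  · intro a b ha hab hb
    have h1 := sx_diff ha hab hb
    have h2 := Ge_step ha hab hb
    have h3 : 128 * (b - a) ^ 2 / π ≤ 128 * (b - a) ^ 2 :=
      div_le_self (by positivity) (by linarith)
    show -(128 * (b - a) ^ 2) ≤ (sx b - Ge (ust b) b) - (sx a - Ge (ust a) a)
    linarith

end Pool.Agent.N855.VS
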